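import Pool.Agent.Helper63.BallLevi46c

/-!
Problem MP_46c13c_an, Q2 (positive answer).

Let `Ω₁ ⊆ ℂⁿ` be open with smooth boundary near `p` (for instance a smooth bounded
pseudoconvex domain), and let `Ω₂ ⊆ Ω₁` be a Euclidean ball - or, more generally, a bounded
open set that is strictly pseudoconvex at `p` - whose boundary meets that of `Ω₁` exactly in
`p`.  If the restriction operator `R : A²(Ω₁) → A²(Ω₂)` is not compact, then `Ω₁` is strictly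
pseudoconvex at `p`.
-/

set_option autoImplicit false

open Pool.Agent.Helper63.SCV

namespace Pool.Agent.Results.MP_46c13c_an.StrictContact

theorem result {n : ℕ} {Ω₁ Ω₂ : Set (Cn n)} {p : Cn n}
    (hΩ₁ : IsOpen Ω₁) (hr₁ : ∃ r : Cn n → ℝ, IsLocalDefiningFunction Ω₁ p r)
    (hΩ₂ : (∃ (c : Cn n) (ρ : ℝ), 0 < ρ ∧ Ω₂ = {z | ∑ i, ‖z i - c i‖ ^ 2 < ρ ^ 2}) ∨
      (IsOpen Ω₂ ∧ Bornology.IsBounded Ω₂ ∧ IsStrictlyPseudoconvexAt Ω₂ p))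
    (h₁₂ : Ω₂ ⊆ Ω₁) (hp : frontier Ω₁ ∩ frontier Ω₂ = {p})
    (hR : ¬ RestrictionIsCompact Ω₁ Ω₂) :
    IsStrictlyPseudoconvexAt Ω₁ p := by
  have hpf : p ∈ frontier Ω₁ ∩ frontier Ω₂ := by rw [hp]; rfl
  refine ⟨hr₁, fun r hr ξ hξ hξ1 hξ2 => ?_⟩
  rcases hΩ₂ with ⟨c, ρ, hρ, rfl⟩ | ⟨h₂, hb, ⟨r₂, hr₂⟩, hpos⟩
  · exact core hΩ₁ (isOpen_rball c ρ) (isBounded_rball c hρ) h₁₂ hp
      (rball_isLocal hρ hpf.2) (fun ξ hξ _ _ => levi_pos_rball c p ρ hξ) hR hr hξ hξ1 hξ2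
  · exact core hΩ₁ h₂ hb h₁₂ hp hr₂ (hpos r₂ hr₂) hR hr hξ hξ1 hξ2

end Pool.Agent.Results.MP_46c13c_an.StrictContact
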