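import Pool.Agent.Helper63.ModelNC46c

/-!
Problem MP_46c13c_an, Q1.

For every `n ≥ 3` and all integers `2 ≤ M < N` there are smooth bounded pseudoconvex domains
`Ω₂ ⊆ Ω₁` in `ℂⁿ` whose boundaries meet in exactly one point `p`, such that the restriction
operator `A²(Ω₁) → A²(Ω₂)` is not compact although the D'Angelo type of `p` is `2N` with
respect to `Ω₁` and `2M` with respect to `Ω₂`.

The domains are `Ω₁ = {ρ₁ < 0}`, `Ω₂ = {ρ₂ < 0}`, `p = 0`, with (coordinates `z₀, z₁, …`)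
`ρ₁ = Re z₀ + |z₀|² + |z₁|⁴ + |z₁ z₂|² + |z₂|^(2N) + ∑_{j ≥ 3} |z_j|²` and
`ρ₂ = ρ₁ + |z₀|² + |z₁|⁴ + |z₂|^(2M) + ∑_{j ≥ 3} |z_j|²`.
-/

set_option autoImplicit false

open scoped ENNReal

namespace Pool.Agent.Results.MP_46c13c_an.TypesDiffer

open Pool.Agent.Helper63.SCV

theorem result (n M N : ℕ) (hn : 3 ≤ n) (hM : 2 ≤ M) (hMN : M < N) :
    ∃ (Ω₁ Ω₂ : Set (Cn n)) (p : Cn n),
      IsSmoothBoundedPseudoconvex Ω₁ ∧ IsSmoothBoundedPseudoconvex Ω₂ ∧ Ω₂ ⊆ Ω₁ ∧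
      frontier Ω₁ ∩ frontier Ω₂ = {p} ∧
      ¬ RestrictionIsCompact Ω₁ Ω₂ ∧
      (∀ r : Cn n → ℝ, IsLocalDefiningFunction Ω₁ p r →
        dangeloType r p = ((2 * N : ℕ) : ℝ≥0∞)) ∧
      (∀ r : Cn n → ℝ, IsLocalDefiningFunction Ω₂ p r →
        dangeloType r p = ((2 * M : ℕ) : ℝ≥0∞)) :=
  main_Q1 n M N hn hM hMN

end Pool.Agent.Results.MP_46c13c_an.TypesDiffer
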